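import Pool.Agent.N912.PC.Fin

/-!
# Pythagorean triples: automatic sequences and multiplicative Bohr sets together

For finitely many automatic sequences `a t`, in arbitrary bases, for every completely
multiplicative map `f` from the positive integers to a compact abelian group and every open set `U`
which contains a value of `f`, and for every completely multiplicative map `g` to a finite
commutative semigroup, there are Pythagorean triples `x, y, z` with `f x, f y, f z ∈ U` on which all the
`a t` and `g` are constant; moreover `x` can be arbitrarily small compared with `y`.

So every colouring which is a function of finitely many automatic sequences and of finitely many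
completely multiplicative functions with finitely many values (the value `0` is allowed) has
monochromatic Pythagorean triples, and these can be found in every given (nonempty) Bohr set of
arbitrary completely multiplicative functions with values in the unit circle.

Method. In the starting file `MultiplicativeBohrSets` generic rationals `t` (for which `f (t + b)` is
almost the same for all `b` in a finite set) are combined by the addition theorem of the tangent until
the defect `f (1 + t ^ 2) - 2 f t` is almost zero. We carry this out for rationals with a prescribed
position at infinity: `t = 2 K ^ (-j) r` with `r ≡ 1` modulo `K ^ L` and `t` almost equal to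
`2 k ^ β` for each of the given bases `k`. The generic rationals are found by the Hales-Jewett theorem
(the common differences of the progressions are sums of powers of `K`), and the position on the
logarithmic scales is read off from completely multiplicative maps to circles. The resulting triples
`K ^ j x, y, z` are those which the method of the starting file `AutomaticColourings` needs: a common
multiple, whose digits in all the bases are controlled, gives the same states of all the
automata at the three numbers. Finally this is applied to the products of finitely many dilates
of the automatic sequences, so that the values of `f` can be moved into `U`.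
-/

set_option autoImplicit false

namespace Pool.Agent.Results.MP_0f91f8_co.AutomataAndBohrSets

/-- `a` is `k`-automatic: its `k`-kernel, the set of the subsequences `n ↦ a (k ^ i * n + j)` with
`j < k ^ i`, is finite. -/
def IsAutomatic {A : Type} (k : ℕ) (a : ℕ → A) : Prop :=
  {g : ℕ → A | ∃ i j : ℕ, j < k ^ i ∧ g = fun n => a (k ^ i * n + j)}.Finite

/-- Let `a t`, `t < m`, be automatic sequences in arbitrary bases `k t ≥ 2`, let `f` be a completely
multiplicative map from the positive integers to a compact abelian topological group (written
additively), let `U` be an open set which contains a value `f n₀`, and let `g` be a completely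
multiplicative map to a finite commutative semigroup. Then for every `r` there are positive integers
`x, y, z` with `x ^ 2 + y ^ 2 = z ^ 2`, `r x ≤ y` and `f x, f y, f z ∈ U` such that all the
`a t` and `g` are constant on `{x, y, z}`. -/
theorem result {m : ℕ} {A : Type} (k : Fin m → ℕ) (hk : ∀ t, 2 ≤ k t) (a : Fin m → ℕ → A)
    (ha : ∀ t, IsAutomatic (k t) (a t))
    {H : Type*} [AddCommGroup H] [TopologicalSpace H] [IsTopologicalAddGroup H] [CompactSpace H]
    (f : ℕ → H) (hf : ∀ u v : ℕ, 0 < u → 0 < v → f (u * v) = f u + f v)
    (U : Set H) (hU : IsOpen U) (n₀ : ℕ) (hn₀ : 0 < n₀) (hfU : f n₀ ∈ U)
    {M : Type} [CommSemigroup M] [Finite M] (g : ℕ → M)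
    (hg : ∀ u v : ℕ, 0 < u → 0 < v → g (u * v) = g u * g v) (r : ℕ) :
    ∃ x y z : ℕ, 0 < x ∧ 0 < y ∧ 0 < z ∧ x ^ 2 + y ^ 2 = z ^ 2 ∧ r * x ≤ y ∧
      (∀ t, a t x = a t y ∧ a t y = a t z) ∧ f x ∈ U ∧ f y ∈ U ∧ f z ∈ U ∧
      g x = g y ∧ g y = g z :=
  Pool.Agent.N912.PC.final k hk a ha f hf U hU n₀ hn₀ hfU g hg r

end Pool.Agent.Results.MP_0f91f8_co.AutomataAndBohrSets
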