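import Pool.Agent.N92.AC.Final

/-!
# Monochromatic Pythagorean triples: automata in several bases, with unbounded memory at the ends

Let `b_1, …, b_t ≥ 2` be pairwise coprime bases. For each `j` we are given a finite automaton with the finite
set of states `Q_j`, which reads the digits of `n` in base `b_j`, starting with the most significant digit;
let `s_j(n)` be its state at the end, let `l_j(n)` be the number of digits of `n` in base `b_j` and
let `v_j(n)` be the number of trailing zeros, i.e. the exponent of the largest power of `b_j` which divides
`n`. We consider colourings of the form

`c(n) = F(l_1(n), …, l_t(n); v_1(n), …, v_t(n); s_1(n), …, s_t(n))`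

where `F` is an ARBITRARY function with values in a finite set of colours. For instance `c` can be

* any function of the exponents of `2`, `3`, `5` in `n`, of the numbers of binary and of ternary digits of
  `n`, of the parities of the sums of the binary and of the ternary digits and of the
  residue of `n` modulo `q`;
* more generally any function of the exponents of finitely many primes in `n` and of `p`-automatic sequences
  for finitely many primes `p` (the bases are these primes).

The starting results treat automatic sequences in several bases (`AutomaticColourings`; no arbitrary
dependence on the exponents or on the numbers of digits), machines with bounded memory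
reading the digits in ONE base (`BoundedMemory`), and arbitrary functions of the prime factors in a sparse set of
primes and of the number of digits in one base, without automata (`SparsePrimeColourings`). Here all three
features occur at the same time: the colouring may depend in an arbitrary way on the unbounded quantities
`l_j` and `v_j`, in several bases, and on the states of automata in all these bases.

**Theorem.** For every such colouring there are Pythagorean triples `x ^ 2 + y ^ 2 = z ^ 2`, with `x`, `y`, `z`
of the same colour, and with `z / x` as large as we please; so there are infinitely many such triples which
are pairwise not similar.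

Proof. Let `B` be the product of the bases. The triples `(B ^ k x, y, z)` with
`B ^ k x = 2 u v`, `y = u ^ 2 - v ^ 2`, `z = u ^ 2 + v ^ 2`, `u = B ^ h + B ^ s + 1`,
`2 v = B ^ k (B ^ s + 1)` are such that `x`, `y`, `z` are congruent to `1` modulo a high power of `B` and very
close to powers of `B`. By Dirichlet's approximation theorem the exponents can be chosen such that all these
powers of `B` are very close to powers of each of the bases. Now we multiply by a number
`μ = V (B ^ L_0 + … + B ^ L_R)`. The number `V` is chosen such that in each base its last digits and its
first digits contain words which act on the states as idempotent maps `e_j` of minimal rank; the Chinese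
remainder theorem gives the last digits, and a number of the form `W B ^ m + B ^ (m - 1) + W_0`
gives the first digits, in all bases at the same time. So in each base the block `V x B ^ L_i` acts as an
element `e s = s' f` of the minimal ideal. By the pigeonhole principle we can choose the `L_i` such that these
elements do not depend on `i`, for each of the numbers of all the triples, and such that the gaps between the
blocks are in the same class modulo the period of the zeros. Then the state after reading `μ x` is
`(t a) ^ R t q_0`, where `t a` acts as a permutation on the image `I_j` of `e_j`; if `R + 1` is a multiple of the
exponent of the symmetric group this is the element `q'` of `I_j` with `f a q' = f q_0`, which does not depend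
on `x`. Finally the dependence on the numbers of digits and of trailing zeros is removed by the
pigeonhole principle, applied to a family of such triples.
-/

set_option autoImplicit false

namespace Pool.Agent.Results.MP_0f91f8_co.AutomataDigitsZeros

/-- The number of digits of `n` in base `b`. -/
def numDigits (b n : ℕ) : ℕ := (Nat.digits b n).length

/-- The number of trailing zeros of `n` in base `b` (`Nat.digits` lists the digits of `n`, the least
significant digit first). -/
def trailingZeros (b n : ℕ) : ℕ := ((Nat.digits b n).takeWhile (fun d => d = 0)).length

/-- The state of the automaton with the transition function `δ` and the initial state `q₀` after reading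
the digits of `n` in base `b`, the most significant digit first. -/
def state {Q : Type} (b : ℕ) (δ : ℕ → Q → Q) (q₀ : Q) (n : ℕ) : Q := (Nat.digits b n).foldr δ q₀

/-- The colour of `n`: an arbitrary function `F` of the numbers of digits in the bases `b j`, of the numbers
of trailing zeros in the bases `b j` and of the states of the automata `(δ j, q₀ j)` which read the
digits in base `b j`. -/
def colour {ι C : Type} (b : ι → ℕ) {Q : ι → Type} (δ : ∀ j, ℕ → Q j → Q j) (q₀ : ∀ j, Q j)
    (F : (ι → ℕ) → (ι → ℕ) → (∀ j, Q j) → C) (n : ℕ) : C :=
  F (fun j => numDigits (b j) n) (fun j => trailingZeros (b j) n)
    (fun j => state (b j) (δ j) (q₀ j) n)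

/-- For finitely many pairwise coprime bases `b j ≥ 2`, finite automata `(Q j, δ j, q₀ j)` and an arbitrary
function `F` with values in a finite set `C` the colouring `colour b δ q₀ F` has monochromatic Pythagorean
triples, with `z / x` as large as we please. -/
theorem result {ι : Type} [Finite ι] [Nonempty ι] (b : ι → ℕ) (hb : ∀ j, 2 ≤ b j)
    (hco : ∀ i j, i ≠ j → Nat.Coprime (b i) (b j)) (Q : ι → Type) [∀ j, Finite (Q j)]
    (δ : ∀ j, ℕ → Q j → Q j) (q₀ : ∀ j, Q j) (C : Type) [Finite C]
    (F : (ι → ℕ) → (ι → ℕ) → (∀ j, Q j) → C) (P : ℕ) :
    ∃ x y z : ℕ, 0 < x ∧ 0 < y ∧ x ^ 2 + y ^ 2 = z ^ 2 ∧ P * x < z ∧
      colour b δ q₀ F x = colour b δ q₀ F y ∧ colour b δ q₀ F y = colour b δ q₀ F z := by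
  obtain ⟨x, y, z, hx, hy, h, hP, c, hc⟩ := Pool.Agent.N92.AC.final hb hco δ q₀ F P
  refine ⟨x, y, z, hx, hy, h, hP, ?_, ?_⟩
  · exact (hc x (Or.inl rfl)).trans (hc y (Or.inr (Or.inl rfl))).symm
  · exact (hc y (Or.inr (Or.inl rfl))).trans (hc z (Or.inr (Or.inr rfl))).symm

end Pool.Agent.Results.MP_0f91f8_co.AutomataDigitsZeros
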