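import Mathlib
import Pool.Agent.Results.MP_0f91f8_co.NoInfiniteShattering
import Pool.Agent.N643.DC.Gen2

/-!
# Monochromatic Pythagorean triples: colourings which count blocks of digits

Let `b ≥ 2` and `L`. For a block `w` of `L` digits in base `b`, not all zero, let `blocks b L w n` be the
number of occurrences of `w` in the expansion of `n` in base `b` (with infinitely many leading zeros; so the
first digits of `n` are counted too). These numbers are unbounded. They determine the sum of the digits of
`n`, the number of occurrences of every nonzero digit, the number of changes of digits, and so on. We consider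
colourings `c(n) = F((blocks b L w n)_w)`, where `F` is an ARBITRARY function. For
instance `c(n)` can be the colour, in an arbitrary colouring of the integers, of the sum of the binary digits
of `n`, or tell whether `11` occurs more often than `101` in the binary expansion of `n`. A machine which reads
the digits of `n` and computes `c(n)` needs unbounded memory in general, so the theorems about automata
and about machines with bounded memory do not apply.

**Theorem (1).** For all `b ≥ 2`, `L`, `K` there is `m > K` such that `m, 2 m, …, K m` contain each nonzero
block of `L` digits the same number of times. Hence for every finite colouring of the kind above there is a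
colour `i` such that `{n : c(n) = i}` contains a dilate of every finite set. In particular there are
monochromatic Pythagorean triples (and monochromatic solutions of every homogeneous equation which has a
solution in positive integers).

**Theorem (2).** There are arbitrarily large `m` such that `3 m, 4 m, 5 m` have the same number
of digits in base `b` and contain each block of `L` digits (the zero block included) the same
number of times, so an arbitrary function of the number of digits and of the numbers of blocks (for
instance: are there more ones than zeros in the binary expansion) is constant on `3 m, 4 m, 5 m`.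

**Theorem (3).** Let `a` be a `b`-automatic sequence with values in any set (finitely many such
sequences can be combined into one), let `q_1, …, q_r` be different primes which do not divide `b`, and let
`F(n)` be an ARBITRARY function, with finitely many values, of

* the numbers of occurrences of all nonzero blocks of `L` digits in base `b`,
* the number of digits and the number of trailing zeros of `n` in base `b`, and `a(n)`,
* the numbers of digits of `n` in the bases `q_j`,
* the exponents of the primes `q_j` in `n`.

For all `P` and `K` there are `x, y > K` and `z > P x` with `x ^ 2 + y ^ 2 = z ^ 2`, `a(x) = a(y) = a(z)` and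
`F(x) = F(y) = F(z)`, such that each nonzero block of `L` digits occurs the same number of times in `x`,
`y`, `z`. So there are infinitely many such triples which are pairwise not similar. With the base `b ^ q` and
an automatic sequence one can also count the occurrences at the positions in given residue classes.

**Theorem (4).** Let `c` be a finite colouring as above, let `f` be a completely multiplicative map from
the positive integers to a compact abelian group (written additively), let `U` be an open set which contains a
value of `f`, and let `A_1, …, A_k` be tame sets (as in `NoInfiniteShattering`). Then there are arbitrarily large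
`x, y, z` with `x ^ 2 + y ^ 2 = z ^ 2`, `c(x) = c(y) = c(z)`, `f(x), f(y), f(z) ∈ U`, which lie in the same
sets `A_i`. The colour `c(x)` can be chosen independently of `f`, `U` and the `A_i`.

Proof. Fix `K` and let `v(k)` be the vector of the numbers `blocks w (n k) - blocks w k` for `n ≤ K` and
`w ≠ 0`. If `k` and `l` are concatenated, with sufficiently many zeros between them, the vectors are added. So
the vectors `v(k)` form a semigroup in `ℤ ^ d`. We show that it is a group. Otherwise, by the
separation theorem and Dirichlet's theorem on simultaneous approximation, there is a linear functional `ℓ` which is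
nonnegative on all `v(k)` and positive for some `v(k₀)`. Let `M = (b ^ m - 1) / (b - 1)`, where `m` is chosen such
that `M` is coprime to all `n ≤ K`. The expansion of the numbers `r (b ^ (m t) - 1) / M`, `0 ≤ r < M`, is
periodic, and multiplication by `n` permutes these numbers up to a number of digits which is
bounded independently of `t`. So the sum of the `v(r (b ^ (m t) - 1) / M)` over all `r` is bounded
independently of `t`, but the value of `ℓ` at the term with `r = k₀ R`, for a suitable number `R`, is at least
`t ℓ(v(k₀))` up to a bounded number, and all other values of `ℓ` are nonnegative, a contradiction. So for each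
`k₀` there is `k` which starts with `k₀` and `v(k) = 0`. This gives (1), and (4) follows with the theorem of
`NoInfiniteShattering`; for (2) one chooses `k₀` such that `3 k₀` and `5 k₀ + 5` have the same number of digits.
For (3) let `T(n)` be the map on the `b`-kernel of `a` given by the digits of `n`, and let `m₀` be such that the
rank of `T(n m₀)` is minimal among all the maps given by positive integers; `m₀` is bounded. For a given bound
`K` on `n` we concatenate `1`, `1`, `m₀`, `1`, numbers which give `v = 0`, and `1`, `1`, `m₀`, `1`, and repeat the
result `N` times. For the product of `n` and this number `k(K, m₀)` the map is `(T S T) ^ N` with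
`T = T(n) T(n) T(n m₀) T(n)`; it acts on the image of `T` as a permutation, and for a suitable `N` it is equal to
`T ^ N`, whatever `S` is. The numbers of digits and of trailing zeros of `n k` are those of `n`, up to constants.
The distances between the pieces are such that the corresponding powers of `b` are congruent to `1` modulo
high powers of the primes `q_j` and very close to powers of the `q_j` (Dirichlet). So `k` is congruent to
`(b - 1) N` modulo high powers of the `q_j` (this is prepared with a piece of residue `b - 1` and vector `0`;
other residues are impossible because of the sum of the digits), and slightly larger than a power of `q_j`, for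
each `j`, and the exponents of `q_j` and the numbers of digits in base `q_j` of `n k` and `n` differ by
constants. So the colour of `n k(K, m₀)` is a function `G_K` of these numbers for `n` and of the maps `T(n m)`,
`m` bounded. Let `G` be the limit of the functions `G_K` along an ultrafilter. By `AutomataDigitsZeros` (helper92)
there are Pythagorean triples with the same value of `G` and the same maps `T(n m)`; now we choose `K` such that
`G_K` agrees with `G` on the triple.
-/

set_option autoImplicit false

open Topology

namespace Pool.Agent.Results.MP_0f91f8_co.NumbersOfBlocks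

open Pool.Agent.Results.MP_0f91f8_co.NoInfiniteShattering (Thick Tame)

/-- The number of occurrences of the block `w` of `L` digits in the expansion of `n` in base `b`: the
number of positions `j` such that the digits of `n` at the positions `j, …, j + L - 1` form the number `w`
(position `0` is the last digit). For `0 < w` all these positions satisfy `j ≤ n`. -/
def blocks (b L w n : ℕ) : ℕ :=
  ((Finset.range (n + 1)).filter fun j => n / b ^ j % b ^ L = w).card

/-- Each block of `L` digits, other than the zero block, occurs the same number of times in `m` and `n`. -/
def SameBlocks (b L m n : ℕ) : Prop :=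
  ∀ w : ℕ, 0 < w → w < b ^ L → blocks b L w m = blocks b L w n

/-- `c` is a function of the numbers of occurrences of the blocks of `L` digits in base `b`. -/
def ByBlocks {C : Type} (b L : ℕ) (c : ℕ → C) : Prop := ∀ m n : ℕ, SameBlocks b L m n → c m = c n

/-- The number of trailing zeros of `n` in base `b` (`Nat.digits` lists the digits of `n`, the least
significant digit first). -/
def trailingZeros (b n : ℕ) : ℕ := ((Nat.digits b n).takeWhile (fun d => d = 0)).length

/-- An arbitrary function `F` of the numbers of occurrences of the nonzero blocks of `L` digits in base
`b`, of the number of digits and the number of trailing zeros in base `b`, of `a n`, of the numbers of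
digits in the bases `q j` and of the exponents of the primes `q j` in `n`. -/
def colour {A J C : Type} (b L : ℕ) (a : ℕ → A) (q : J → ℕ)
    (F : (ℕ → ℕ) → ℕ → ℕ → A → (J → ℕ) → (J → ℕ) → C) (n : ℕ) : C :=
  F (fun w => if 0 < w ∧ w < b ^ L then blocks b L w n else 0) (Nat.digits b n).length
    (trailingZeros b n) (a n) (fun j => (Nat.digits (q j) n).length)
    (fun j => n.factorization (q j))

/-- `a` is `b`-automatic: its `b`-kernel is finite. -/
def IsAutomatic {C : Type} (b : ℕ) (a : ℕ → C) : Prop :=
  {f : ℕ → C | ∃ i j : ℕ, j < b ^ i ∧ f = fun n => a (b ^ i * n + j)}.Finite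

lemma SameBlocks.symm {b L m n : ℕ} (h : SameBlocks b L m n) : SameBlocks b L n m :=
  fun w h0 h1 => (h w h0 h1).symm

lemma SameBlocks.trans {b L m n k : ℕ} (h : SameBlocks b L m n) (h' : SameBlocks b L n k) :
    SameBlocks b L m k := fun w h0 h1 => (h w h0 h1).trans (h' w h0 h1)

lemma dilates {b : ℕ} (hb : 2 ≤ b) (L K : ℕ) :
    ∃ m : ℕ, K < m ∧ ∀ n : ℕ, 0 < n → n ≤ K → SameBlocks b L (m * n) m := by
  obtain ⟨m, hm, h⟩ := Pool.Agent.N643.DC.main hb L K
  exact ⟨m, hm, fun n h0 h1 w hw hwb => h n h0 h1 w hw hwb⟩

lemma thick {b : ℕ} (hb : 2 ≤ b) (L : ℕ) {C : Type} [Finite C] (c : ℕ → C) (hc : ByBlocks b L c) :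
    ∃ i : C, Thick {n | c n = i} := by
  choose m hm h using fun K : ℕ => dilates hb L K
  obtain ⟨i, hi⟩ : ∃ i : C, ∃ᶠ K : ℕ in Filter.atTop, c (m K) = i := by
    by_contra hcon
    push Not at hcon
    have h1 : ∀ᶠ K : ℕ in Filter.atTop, ∀ i : C, c (m K) ≠ i := by
      rw [Filter.eventually_all]
      intro i
      exact Filter.not_frequently.mp (by simpa using hcon i)
    obtain ⟨K, hK⟩ := h1.exists
    exact hK _ rfl
  refine ⟨i, fun K => ?_⟩
  obtain ⟨K', hK', hi'⟩ := (Filter.frequently_atTop.mp hi) K
  refine ⟨m K', by have := hm K'; omega, fun n hn hnK => ?_⟩
  show c (m K' * n) = i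
  rw [← hi']
  exact hc _ _ (h K' n hn (hnK.trans hK'))

/-- Colourings which count blocks. (In (2) the numbers of digits agree, so the zero block, too, occurs the
same number of times inside the expansions.) -/
theorem result.{u} (b : ℕ) (hb : 2 ≤ b) (L : ℕ) :
    -- (1) dilates
    (∀ K : ℕ, ∃ m : ℕ, K < m ∧ ∀ n : ℕ, 0 < n → n ≤ K → SameBlocks b L (m * n) m) ∧
    -- (2) multiples of the triple `3, 4, 5`
    (∀ K : ℕ, ∃ m : ℕ, K < m ∧
      (Nat.digits b (3 * m)).length = (Nat.digits b (5 * m)).length ∧
      (Nat.digits b (4 * m)).length = (Nat.digits b (5 * m)).length ∧
      SameBlocks b L (3 * m) (5 * m) ∧ SameBlocks b L (4 * m) (5 * m)) ∧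
    -- (3) together with an automatic sequence, numbers of digits in several bases, trailing zeros and
    -- the exponents of finitely many primes
    (∀ {A J C : Type} [Finite J] [Finite C] (a : ℕ → A), IsAutomatic b a →
      ∀ q : J → ℕ, (∀ j, (q j).Prime) → Function.Injective q → (∀ j, Nat.Coprime b (q j)) →
      ∀ (F : (ℕ → ℕ) → ℕ → ℕ → A → (J → ℕ) → (J → ℕ) → C) (P K : ℕ),
      ∃ x y z : ℕ, K < x ∧ K < y ∧ x ^ 2 + y ^ 2 = z ^ 2 ∧ P * x < z ∧
        (a x = a y ∧ a y = a z) ∧ SameBlocks b L x y ∧ SameBlocks b L y z ∧
        colour b L a q F x = colour b L a q F y ∧ colour b L a q F y = colour b L a q F z) ∧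
    -- (4) together with tame sets and a completely multiplicative function
    (∀ {C : Type} [Finite C] (c : ℕ → C), ByBlocks b L c → ∃ i : C, Thick {n | c n = i} ∧
      ∀ {H : Type u} [AddCommGroup H] [TopologicalSpace H] [IsTopologicalAddGroup H]
        [CompactSpace H] (f : ℕ → H), (∀ m n : ℕ, 0 < m → 0 < n → f (m * n) = f m + f n) →
      ∀ U : Set H, IsOpen U → ∀ n₀ : ℕ, 0 < n₀ → f n₀ ∈ U →
      ∀ (k : ℕ) (A : Fin k → Set ℕ), (∀ i, Tame (A i)) → ∀ K : ℕ,
      ∃ x y z : ℕ, (c x = i ∧ c y = i ∧ c z = i) ∧ K < x ∧ K < y ∧ K < z ∧
        x ^ 2 + y ^ 2 = z ^ 2 ∧ (f x ∈ U ∧ f y ∈ U ∧ f z ∈ U) ∧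
        ∀ i, (x ∈ A i ↔ y ∈ A i) ∧ (y ∈ A i ↔ z ∈ A i)) := by
  refine ⟨dilates hb L, fun K => ?_, ?_, ?_⟩
  · obtain ⟨m, hm, h3, h4, h⟩ := Pool.Agent.N643.DC.main345 hb L K
    have hlen : ∀ n : ℕ, n ≠ 0 → (Nat.digits b n).length = Nat.log b n + 1 := fun n hn =>
      Nat.length_digits b n (by omega) hn
    refine ⟨m, hm, ?_, ?_, fun w h0 h1 => (h w h0 h1).1, fun w h0 h1 => (h w h0 h1).2⟩
    · rw [hlen _ (by omega), hlen _ (by omega), h3]
    · rw [hlen _ (by omega), hlen _ (by omega), h4]
  · intro A J C _ _ a ha q hq hinj hco F P K
    obtain ⟨x, y, z, hx, hy, hxyz, hP, hc, hax, h⟩ :=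
      Pool.Agent.N643.DC.gen2 hb L a ha q hq hinj hco F P K
    exact ⟨x, y, z, hx, hy, hxyz, hP, hax, fun w h0 h1 => (h w h0 h1).1,
      fun w h0 h1 => (h w h0 h1).2, hc.1, hc.2⟩
  · intro C _ c hc
    obtain ⟨i, hi⟩ := thick hb L c hc
    refine ⟨i, hi, ?_⟩
    intro H _ _ _ _ f hf U hU n₀ hn₀ hfn k A hA K
    obtain ⟨x, y, z, hx, hy, hz, h⟩ :=
      (NoInfiniteShattering.result.2.1 f hf U hU n₀ hn₀ hfn k A hA K).1 _ hi
    exact ⟨x, y, z, ⟨hx, hy, hz⟩, h⟩

end Pool.Agent.Results.MP_0f91f8_co.NumbersOfBlocks
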