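import Pool.Agent.N542.PX.Main
import Pool.Agent.N542.PX.Triple

set_option autoImplicit false

/-!
# Pythagorean triples and colourings by the fractional parts of real powers

Let `x_i(n) = ∑_l α_{il} n ^ (c_l)`, `i ≤ r`, be real linear combinations of the powers `n ^ (c_l)` with
distinct positive exponents `c_l` which are not integers, such that the `r` coefficient vectors are linearly
independent (for instance `x_i(n) = n ^ (c_i)`). We consider the colourings of the positive integers which
depend on the point `x(n) mod 1` of the `r`-dimensional torus. The torus is divided into finitely many cells in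
an arbitrary way, but the interiors of the cells are dense: the cells need not be Jordan measurable, and any
number of them may accumulate at `0`, so that the colouring is not constant near `0`. We show (`result`) that such
a colouring has monochromatic Pythagorean triples: there is even ONE triple `(A, B, C)` such that
`kA, kB, kC` have the same colour for all `k` in a set of positive lower density.

More generally, the colour may be arbitrary outside a polynomial Bohr set
`{n : P_1(n), …, P_s(n) are within δ of integers}`, where the `P_j` are real polynomials with `P_j(0) = 0` (for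
instance outside the multiples of `q`), and on this set it may also depend on the class of `n` for a dilation
invariant relation `E`, provided that there are Pythagorean triples `(A, B, C)` with `B / C` in any given subinterval
of `(0, 1)` whose members are `E`-related. This holds (`adic`) if `E` is the equality of the valuations modulo
`d` and of the last nonzero digits in finitely many prime bases.

Proof (`Pool.Agent.N542.PX`). Choose (Baire) a vector `t` such that the points `y(a) = (∑_l α_{il} a ^ (c_l) t_l)_i`
are interior points of cells for all `a = 2 ^ (-j)`. Two of these numbers, `a₀` and `a₁`, with `a₁ / a₀` as small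
as we please, have the same colour. Take a triple with `B / C` close to `a₁ / a₀`; then `A / C` is close to `1`, and
`y(a₀)`, `y(a₀ A / C)`, `y(a₀ B / C)` are interior points of cells of one colour. Finally `x(kA), x(kB), x(kC)`
are close modulo one to these three points for a set of `k` of positive lower density: a product of powers of
`cos ^ 2` has nonnegative Fourier coefficients, and the averages of `exp(2 π i ψ(k))` tend to `0` for every
nontrivial combination `ψ` of the powers `k ^ (c_l)` plus a polynomial (van der Corput), and for every polynomial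
`ψ` with an irrational coefficient (Weyl); the other polynomials are integral on the multiples of a fixed integer.
-/

namespace Pool.Agent.Results.MP_0f91f8_co.RealPowerColourings

open Finset Filter Topology

/-- the functions `x_i(n) = ∑_l α_{il} n ^ (c_l)` -/
noncomputable def powers {r L : ℕ} (c : Fin L → ℝ) (α : Fin r → Fin L → ℝ) (n : ℕ) : Fin r → ℝ :=
  fun i => ∑ l, α i l * (n : ℝ) ^ c l

/-- `y` is closer than `δ` to an integer -/
def NearInt (δ y : ℝ) : Prop := ∃ z : ℤ, |y - z| < δ

/-- invariance of a relation on the positive integers under dilations -/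
def DilationInvariant (E : ℕ → ℕ → Prop) : Prop :=
  ∀ k m n : ℕ, 0 < k → 0 < m → 0 < n → E m n → E (k * m) (k * n)

/-- there are Pythagorean triples of every shape whose members are related by `E` -/
def AllShapes (E : ℕ → ℕ → Prop) : Prop :=
  ∀ s₁ s₂ : ℝ, 0 < s₁ → s₁ < s₂ → s₂ < 1 → ∃ A B C : ℕ, 0 < A ∧ 0 < B ∧ 0 < C ∧
    A ^ 2 + B ^ 2 = C ^ 2 ∧ s₁ * C < B ∧ (B : ℝ) < s₂ * C ∧ E A B ∧ E B C

open scoped Classical in
/-- Let `c_l > 0` be distinct and not integers, let the rows of `α` be linearly independent, and let `X` be a
function on `ℝ ^ r` with finitely many values which has the period one in each variable and is locally constant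
on a dense (open) set. Let `P_j` be real polynomials with `P_j(0) = 0`, let `δ > 0`, and let `E` be a dilation
invariant relation which has Pythagorean triples of every shape. Let `colour` be any colouring such that, for the
`n` for which all the `P_j(n)` are within `δ` of integers, the colour of `n` depends only on `X(x(n))` and the
`E`-class of `n`. Then there is a Pythagorean triple `(A, B, C)` such that `kA, kB, kC` have the same colour for
a set of positive integers `k` of positive lower density. -/
theorem result {r L s : ℕ} (c : Fin L → ℝ) (hc : ∀ l, 0 < c l) (hcn : ∀ l, ∀ n : ℕ, c l ≠ n)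
    (hinj : Function.Injective c) (α : Fin r → Fin L → ℝ) (hα : LinearIndependent ℝ α)
    {κ κ' : Type*} [Finite κ] (X : (Fin r → ℝ) → κ)
    (hper : ∀ (v : Fin r → ℝ) (m : Fin r → ℤ), X (fun i => v i + m i) = X v)
    (hX : Dense {v | ∀ᶠ w in 𝓝 v, X w = X v})
    (P : Fin s → Polynomial ℝ) (hP : ∀ j, (P j).eval 0 = 0) (δ : ℝ) (hδ : 0 < δ)
    (E : ℕ → ℕ → Prop) (hE : DilationInvariant E) (hE' : AllShapes E) (colour : ℕ → κ')
    (hcol : ∀ m n : ℕ, 0 < m → 0 < n → (∀ j, NearInt δ ((P j).eval (m : ℝ))) →
      (∀ j, NearInt δ ((P j).eval (n : ℝ))) → X (powers c α m) = X (powers c α n) → E m n →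
      colour m = colour n) :
    ∃ A B C : ℕ, 0 < A ∧ 0 < B ∧ 0 < C ∧ A ^ 2 + B ^ 2 = C ^ 2 ∧ ∃ η : ℝ, 0 < η ∧
      ∀ᶠ N : ℕ in atTop, η * N ≤ (((Icc 1 N).filter (fun k : ℕ =>
        colour (k * A) = colour (k * B) ∧ colour (k * B) = colour (k * C))).card : ℝ) := by
  obtain ⟨A, B, C, hA, hB, hC, hABC, hAB, hBC, η, hη, h⟩ := Pool.Agent.N542.PX.main c hc hcn hinj α hα
    X hper hX P hP δ hδ E hE'
  refine ⟨A, B, C, hA, hB, hC, hABC, η / 2, by positivity, ?_⟩
  obtain ⟨N₁, hN₁⟩ := exists_nat_gt (2 / η)
  filter_upwards [h, eventually_ge_atTop N₁] with N hN hNN₁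
  have h1 : (1 : ℝ) ≤ η / 2 * N := by
    have h2 : 2 / η ≤ N := hN₁.le.trans (by exact_mod_cast hNN₁)
    rw [div_le_iff₀ hη] at h2
    linarith
  set F := (range N).filter (fun k : ℕ =>
        (∀ j, ∀ a : ℕ, a = A ∨ a = B ∨ a = C → ∃ z : ℤ, |(P j).eval ((k * a : ℕ) : ℝ) - z| < δ) ∧
        X (fun i => ∑ l, α i l * ((k * A : ℕ) : ℝ) ^ c l) =
          X (fun i => ∑ l, α i l * ((k * B : ℕ) : ℝ) ^ c l) ∧
        X (fun i => ∑ l, α i l * ((k * B : ℕ) : ℝ) ^ c l) =
          X (fun i => ∑ l, α i l * ((k * C : ℕ) : ℝ) ^ c l)) with hF
  have hsub : F.erase 0 ⊆ (Icc 1 N).filter (fun k : ℕ =>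
        colour (k * A) = colour (k * B) ∧ colour (k * B) = colour (k * C)) := by
    intro k hk
    rw [mem_erase, hF, mem_filter, mem_range] at hk
    obtain ⟨hk0, hkN, hk1, hk2, hk3⟩ := hk
    have hkpos : 0 < k := Nat.pos_of_ne_zero hk0
    rw [mem_filter, mem_Icc]
    refine ⟨⟨hkpos, hkN.le⟩, ?_, ?_⟩
    · exact hcol _ _ (Nat.mul_pos hkpos hA) (Nat.mul_pos hkpos hB)
        (fun j => hk1 j A (Or.inl rfl)) (fun j => hk1 j B (Or.inr (Or.inl rfl))) hk2
        (hE k A B hkpos hA hB hAB)
    · exact hcol _ _ (Nat.mul_pos hkpos hB) (Nat.mul_pos hkpos hC)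
        (fun j => hk1 j B (Or.inr (Or.inl rfl))) (fun j => hk1 j C (Or.inr (Or.inr rfl))) hk3
        (hE k B C hkpos hB hC hBC)
  have h2 := card_le_card hsub
  have h3 : F.card ≤ (F.erase 0).card + 1 := by
    have := pred_card_le_card_erase (s := F) (a := 0)
    omega
  have h4 : (F.card : ℝ) ≤ (((Icc 1 N).filter (fun k : ℕ =>
        colour (k * A) = colour (k * B) ∧ colour (k * B) = colour (k * C))).card : ℝ) + 1 := by
    exact_mod_cast h3.trans (Nat.add_le_add_right h2 1)
  linarith

/-- at each `p` in `S` the valuations agree modulo `d` and the parts prime to `p` agree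
modulo `p ^ r` -/
def SameAdic (S : Finset ℕ) (d r : ℕ) (m n : ℕ) : Prop :=
  ∀ p ∈ S, m.factorization p ≡ n.factorization p [MOD d] ∧
    m / p ^ m.factorization p ≡ n / p ^ n.factorization p [MOD p ^ r]

/-- The relation `SameAdic` is dilation invariant and has Pythagorean triples of every shape. -/
theorem adic (S : Finset ℕ) (hS : ∀ p ∈ S, p.Prime) (d r : ℕ) (hd : 0 < d) :
    DilationInvariant (SameAdic S d r) ∧ AllShapes (SameAdic S d r) := by
  refine ⟨?_, fun s₁ s₂ h0 h12 h2 => Pool.Agent.N542.PX.triple S hS d r hd s₁ s₂ h0 h12 h2⟩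
  intro k m n hk hm hn h p hp
  obtain ⟨h1, h2⟩ := h p hp
  have e1 : ∀ a : ℕ, 0 < a → (k * a).factorization p = k.factorization p + a.factorization p := by
    intro a ha
    rw [Nat.factorization_mul hk.ne' ha.ne', Finsupp.add_apply]
  have e2 : ∀ a : ℕ, k * a / p ^ (k * a).factorization p =
      (k / p ^ k.factorization p) * (a / p ^ a.factorization p) := fun a => Nat.ordCompl_mul k a p
  rw [e2, e2, e1 m hm, e1 n hn]
  exact ⟨h1.add_left _, h2.mul_left _⟩

end Pool.Agent.Results.MP_0f91f8_co.RealPowerColourings
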